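import Pool.Agent.X310.RqB
import Pool.Agent.X310.RdC

/-!
# Homologically trivial cycles: quotients by finite groups, real fields and CM fields

Part A. Let `C` be the category of Chow motives over the algebraic closure of `ℚ` with rational coefficients, with the
functors `coh i` (cohomology in degree `i`) and `cyc m` (the groups `CH^m_hom`). `Expected m M` is Q1 for the motive `M`
and codimension `m`: if `H^{2m-1}(M) = 0`, then `CH^m_hom(M)_ℚ = 0`. Let a finite group `G` act on a smooth projective
variety with the motive `X`; for a subgroup `D` let `Q D` be the motive of the quotient by `D`.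

* If each irreducible `ℚ`-representation of `G` has a nonzero vector fixed by some `D i`, then Q1 for the quotients by
  the `D i` implies Q1 for the variety, and `CH^m_hom` vanishes for the variety if and only if it vanishes for these
  quotients.
* If `G` is not a Frobenius complement (`¬ HasFreeRep G`), then Q1 for the variety follows from Q1 for its quotients by
  the elements `g ≠ 1` of `G`. If `τ ∈ G`, `τ² = 1`, `τ ∈ comms τ` (for example, if `G` is a nonabelian simple group), then
  Q1 for the variety follows from Q1 for the quotient by `τ`.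

Part B. Let `X` be a variety over `ℚ`, with `H^{2m-1} = 0`, and `M(E) = CH^m_hom(X_E)_ℚ` for the number fields `E`; this
is a functor with Galois descent and transfer (`DescentFunctor`). Q1 for `X` over the algebraic closure says that
`M(E) = 0` for all number fields `E`. It is enough to know this for those `E` which have a real embedding or are CM
fields, and whose group `Aut E` is trivial or a Frobenius complement (`HasFreeRep`).
-/

set_option autoImplicit false

universe w v u

namespace Pool.Agent.Results.MP_32dfd1_ag.GroupsAndFields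

open CategoryTheory Pool.Agent.X310.Rq Pool.Agent.X310.Rd

/-- Cohomology and homologically trivial cycles, additive functors on a category of motives. -/
structure BettiChow (C : Type u) [Category.{v} C] [Preadditive C] where
  coh : ℕ → (C ⥤ ModuleCat.{w} ℚ)
  cyc : ℕ → (C ⥤ ModuleCat.{w} ℚ)
  coh_additive : ∀ i, (coh i).Additive
  cyc_additive : ∀ m, (cyc m).Additive

variable {C : Type u} [Category.{v} C] [Preadditive C]

/-- `CH^m_hom(M) = 0`. -/
def BettiChow.NoCycles (T : BettiChow.{w} C) (m : ℕ) (M : C) : Prop := Subsingleton ((T.cyc m).obj M)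

/-- Q1 for `M` and codimension `m`: if `H^{2m-1}(M) = 0`, then `CH^m_hom(M) = 0`. -/
def BettiChow.Expected (T : BettiChow.{w} C) (m : ℕ) (M : C) : Prop :=
  Subsingleton ((T.coh (2 * m - 1)).obj M) → T.NoCycles m M

theorem thick_one (F : C ⥤ ModuleCat.{w} ℚ) (hF : F.Additive) : IsThick fun M => Subsingleton (F.obj M) := by
  intro X κ _ Y f g h1 hY
  exact thick_vanish (fun _ : Unit => F) (fun _ => hF) X κ Y f g h1 (fun i _ => hY i) ()

theorem partA [Linear ℚ C] (T : BettiChow.{w} C) (m : ℕ) {G : Type} [Group G] [Finite G] (X : C)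
    (ρ : G →* End X) (Q : Subgroup G → C) (hQ : ∀ D, IsQuotientBy ρ D (Q D)) :
    (∀ (ι : Type) (D : ι → Subgroup G), IsRich D →
      ((∀ i, T.Expected m (Q (D i))) → T.Expected m X) ∧
      (T.NoCycles m X ↔ ∀ i, T.NoCycles m (Q (D i)))) ∧
    (¬ HasFreeRep G → (∀ g : G, g ≠ 1 → T.Expected m (Q (Subgroup.zpowers g))) → T.Expected m X) ∧
    (∀ τ : G, τ * τ = 1 → τ ∈ comms τ → T.Expected m (Q (Subgroup.zpowers τ)) → T.Expected m X) := by
  have hT : IsThick (T.NoCycles m) := thick_one _ (T.cyc_additive m)
  have hC : IsThick fun M => Subsingleton ((T.coh (2 * m - 1)).obj M) := thick_one _ (T.coh_additive _)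
  have key : ∀ (ι : Type) (D : ι → Subgroup G), IsRich D → (∀ i, T.Expected m (Q (D i))) →
      T.Expected m X := by
    intro ι D hD h hX
    exact rich_mem D hD ρ (fun i => Q (D i)) (fun i => hQ (D i)) _ hT fun i =>
      h i (quot_mem ρ (D i) _ (hQ (D i)) _ hC hX)
  refine ⟨fun ι D hD => ⟨key ι D hD, fun hX i => quot_mem ρ (D i) _ (hQ (D i)) _ hT hX,
    fun h => rich_mem D hD ρ (fun i => Q (D i)) (fun i => hQ (D i)) _ hT h⟩, fun hG h => ?_, fun τ hτ hm h => ?_⟩
  · exact key _ _ (rich_of_not_free hG) fun g => h g.1 g.2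
  · exact key _ _ (rich_single hτ hm) fun _ => h

open Pool.Agent.X307.MU Pool.Agent.X310.Rc in
theorem result :
    (∀ (C : Type u) [Category.{v} C] [Preadditive C] [Linear ℚ C] (T : BettiChow.{w} C) (m : ℕ)
      (G : Type) [Group G] [Finite G] (X : C) (ρ : G →* End X) (Q : Subgroup G → C),
      (∀ D, IsQuotientBy ρ D (Q D)) →
      (∀ (ι : Type) (D : ι → Subgroup G), Pool.Agent.X310.Rq.IsRich D →
        ((∀ i, T.Expected m (Q (D i))) → T.Expected m X) ∧
        (T.NoCycles m X ↔ ∀ i, T.NoCycles m (Q (D i)))) ∧
      (¬ HasFreeRep G → (∀ g : G, g ≠ 1 → T.Expected m (Q (Subgroup.zpowers g))) → T.Expected m X) ∧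
      (∀ τ : G, τ * τ = 1 → τ ∈ comms τ → T.Expected m (Q (Subgroup.zpowers τ)) → T.Expected m X)) ∧
    ∀ T : DescentFunctor ℚ,
      (∀ E : Fld ℚ, FiniteDimensional ℚ E → T.Zero E) ↔
        ∀ E : Fld ℚ, FiniteDimensional ℚ E → (HasRealPlace E ∨ NumberField.IsCMField E) →
          HasFreeRep (AutOf E) → T.Zero E := by
  refine ⟨fun C _ _ _ T m G _ _ X ρ Q hQ => partA T m X ρ Q hQ, fun T => ?_⟩
  obtain ⟨c, hc⟩ := exists_conj (k := ℚ) (algebraMap ℚ ℂ) (fun x => by simp)
  exact ⟨fun h E hE _ _ => h E hE, fun h E hE => zero_all_cm T hc h E hE⟩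

end Pool.Agent.Results.MP_32dfd1_ag.GroupsAndFields
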